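import Mathlib
import Pool.Agent.H868R3.GAM.Mono
import Pool.Agent.H868R3.GAM.Shape

/-!
# Galois-stable families of products of gamma values at rational points

Rohrlich's conjecture asserts that `Γ(a₁) ⋯ Γ(a_r)` is an algebraic multiple of `π ^ (r / 2)` only
if the sum of the fractional parts `{m a₁} + ⋯ + {m a_r}` is `r / 2` for all `m` prime to the
denominator.
-/

set_option autoImplicit false

namespace Pool.Agent.Results.MP_c2409d_nt.GaloisStable

open Pool.Agent.H868R3.GAM

/-- The family consists of rationals with common denominator `D`, none of which is `0, -1, -2, …`. -/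
def Admissible (D : ℕ) {r : ℕ} (a : Fin r → ℚ) : Prop :=
  (∀ (i : Fin r) (n : ℕ), a i ≠ -(n : ℚ)) ∧ ∀ i : Fin r, ∃ z : ℤ, (D : ℚ) * a i = (z : ℚ)

/-- The product of the values of the gamma function is an algebraic multiple of `π ^ (r / 2)`. -/
def AlgebraicMultiple {r : ℕ} (a : Fin r → ℚ) : Prop :=
  ∃ α : ℝ, IsAlgebraic ℚ α ∧
    ∏ i : Fin r, Real.Gamma ((a i : ℚ) : ℝ) = α * Real.pi ^ ((r : ℝ) / 2)

/-- For every `m` prime to `D` the product of the `Γ(m a_i)` is an algebraic multiple of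
`π ^ (r / 2)`. -/
def AllConjugates (D : ℕ) {r : ℕ} (a : Fin r → ℚ) : Prop :=
  ∀ m : ℕ, 1 ≤ m → m ≤ D → Nat.Coprime m D → AlgebraicMultiple (fun i => (m : ℚ) * a i)

/-- The deviation of the sum of the fractional parts of the `m a_i` from `r / 2`. -/
def deviation {r : ℕ} (a : Fin r → ℚ) (m : ℕ) : ℚ :=
  ∑ i : Fin r, Int.fract ((m : ℚ) * a i) - (r : ℚ) / 2

/-- The fractional parts of the `m a_i` add up to `r / 2` for all `m` prime to `D`. -/
def Balanced (D : ℕ) {r : ℕ} (a : Fin r → ℚ) : Prop :=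
  ∀ m : ℕ, 1 ≤ m → m ≤ D → Nat.Coprime m D → deviation a m = 0

/-- The deviation takes only the values `0`, `N` and `-N`, for one number `N > 0`. -/
def ThreeValued (D : ℕ) {r : ℕ} (a : Fin r → ℚ) : Prop :=
  ∃ N : ℚ, 0 < N ∧ ∀ m : ℕ, 1 ≤ m → m ≤ D → Nat.Coprime m D →
    deviation a m = 0 ∨ deviation a m = N ∨ deviation a m = -N

/-- The deviation is a positive multiple of the elementary function (see
`Pool.Agent.H868R3.GAM.shape`) of the quotient of the group `(ℤ/D)ˣ` by `H`, with respect to the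
generator `g` of this quotient and the element `-1`. -/
def Elementary (D : ℕ) (H : Subgroup (ZMod D)ˣ) (g : (ZMod D)ˣ) {r : ℕ} (a : Fin r → ℚ) : Prop :=
  ∃ N : ℚ, 0 < N ∧ ∀ (m : ℕ) (h : Nat.Coprime m D),
    deviation a m = N * shape (-1) H g (ZMod.unitOfCoprime m h)

theorem half_pow (r : ℕ) : Real.pi ^ ((r : ℝ) / 2) = (Real.sqrt Real.pi) ^ r := by
  rw [Real.sqrt_eq_rpow, ← Real.rpow_natCast, ← Real.rpow_mul Real.pi_pos.le]
  congr 1
  ring

theorem unit_cast (D : ℕ) [NeZero D] {m : ℕ} (h : Nat.Coprime m D) :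
    (((m : ℤ)) : ZMod D) = ((rep D (ZMod.unitOfCoprime m h) : ℤ) : ZMod D) := by
  rw [rep_cast, ZMod.coe_unitOfCoprime, Int.cast_natCast]

theorem fract_unit (D : ℕ) [NeZero D] {m : ℕ} (h : Nat.Coprime m D) {q : ℚ} (hq : Lev D q) :
    Int.fract ((m : ℚ) * q) = Int.fract ((rep D (ZMod.unitOfCoprime m h) : ℚ) * q) := by
  have := fract_congr D _ _ (unit_cast D h) q hq
  rwa [Int.cast_natCast] at this

theorem exists_nat (D : ℕ) [NeZero D] (x : (ZMod D)ˣ) :
    ∃ (m : ℕ) (h : Nat.Coprime m D), 1 ≤ m ∧ m ≤ D ∧ ZMod.unitOfCoprime m h = x := by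
  rcases Nat.eq_or_lt_of_le (Nat.one_le_iff_ne_zero.2 (NeZero.ne D)) with h1 | h1
  · subst h1
    exact ⟨1, Nat.coprime_one_right 1, le_rfl, le_rfl, Subsingleton.elim _ _⟩
  · have hlt := ZMod.val_lt (x : ZMod D)
    have hco := ZMod.val_coe_unit_coprime x
    refine ⟨(x : ZMod D).val, hco, ?_, hlt.le, ?_⟩
    · rcases Nat.eq_zero_or_pos (x : ZMod D).val with h0 | h0
      · rw [h0, Nat.coprime_zero_left] at hco
        omega
      · exact h0
    · ext
      rw [ZMod.coe_unitOfCoprime, ZMod.natCast_val, ZMod.cast_id', id]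

theorem deviation_eq (D : ℕ) [NeZero D] {r : ℕ} (a : Fin r → ℚ) (hlev : ∀ i, Lev D (a i))
    {m : ℕ} (h : Nat.Coprime m D) : deviation a m = T D a (ZMod.unitOfCoprime m h) := by
  unfold deviation T
  rw [Finset.sum_sub_distrib, Finset.sum_const, Finset.card_univ, Fintype.card_fin, nsmul_eq_mul,
    mul_one_div]
  congr 1
  exact Finset.sum_congr rfl (fun i _ => fract_unit D h (hlev i))

/-- The conjugate product and the normalised one differ by a nonzero rational number. -/
theorem algebraic_iff (D : ℕ) [NeZero D] {r : ℕ} (a : Fin r → ℚ) (ha : Admissible D a)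
    {m : ℕ} (hm : 1 ≤ m) (h : Nat.Coprime m D) :
    AlgebraicMultiple (fun i => (m : ℚ) * a i) ↔
      IsAlgebraic ℚ (P D a (ZMod.unitOfCoprime m h)) := by
  have hadm : ∀ (i : Fin r) (n : ℕ), (m : ℚ) * a i ≠ -(n : ℚ) := by
    intro i n hn
    obtain ⟨z, hz⟩ := ha.2 i
    have hm0 : (m : ℚ) ≠ 0 := by exact_mod_cast (by omega : m ≠ 0)
    -- `a i` is an integer
    have hint : IsInt (a i) := by
      rw [← isInt_mul D (ZMod.unitOfCoprime m h) ⟨z, hz⟩, isInt_iff_fract,
        ← fract_unit D h ⟨z, hz⟩, hn]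
      have : (-(n : ℚ)) = ((-(n : ℤ) : ℤ) : ℚ) := by push_cast; rfl
      rw [this, Int.fract_intCast]
    obtain ⟨y, hy⟩ := hint
    have hy0 : y ≤ 0 := by
      by_contra hc
      rw [hy] at hn
      have h1 : (m : ℤ) * y = -(n : ℤ) := by exact_mod_cast hn
      have h2 : 0 < (m : ℤ) * y := mul_pos (by omega) (by omega)
      omega
    apply ha.1 i (-y).toNat
    have h3 : (((-y).toNat : ℕ) : ℤ) = -y := Int.toNat_of_nonneg (by omega)
    have h4 : (((-y).toNat : ℕ) : ℚ) = -(y : ℚ) := by exact_mod_cast h3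
    rw [h4, neg_neg, hy]
  choose t ht0 ht using fun i => gamma_gam ((m : ℚ) * a i) (hadm i)
  have hs0 : Real.sqrt Real.pi ≠ 0 := (Real.sqrt_pos.2 Real.pi_pos).ne'
  have hQ : (∏ i, ((t i : ℚ) : ℝ)) = ((∏ i, t i : ℚ) : ℝ) := by
    rw [Rat.cast_prod]
  have hQ0 : (∏ i, t i : ℚ) ≠ 0 := Finset.prod_ne_zero_iff.2 (fun i _ => ht0 i)
  have hQ0' : ((∏ i, t i : ℚ) : ℝ) ≠ 0 := by exact_mod_cast hQ0
  have hQa : IsAlgebraic ℚ ((∏ i, t i : ℚ) : ℝ) := isAlgebraic_algebraMap (∏ i, t i : ℚ)
  have key : ∏ i : Fin r, Real.Gamma (((m : ℚ) * a i : ℚ) : ℝ)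
      = ((∏ i, t i : ℚ) : ℝ) * P D a (ZMod.unitOfCoprime m h) * Real.pi ^ ((r : ℝ) / 2) := by
    have h1 : P D a (ZMod.unitOfCoprime m h) * (Real.sqrt Real.pi) ^ r
        = ∏ i : Fin r, gam ((m : ℚ) * a i) := by
      unfold P
      rw [Finset.prod_div_distrib, Finset.prod_const, Finset.card_univ, Fintype.card_fin,
        div_mul_cancel₀ _ (pow_ne_zero r hs0)]
      exact Finset.prod_congr rfl (fun i _ => (gam_congr (fract_unit D h (ha.2 i))).symm)
    rw [half_pow, mul_assoc, h1, ← hQ, ← Finset.prod_mul_distrib]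
    exact Finset.prod_congr rfl (fun i _ => ht i)
  have hpi : Real.pi ^ ((r : ℝ) / 2) ≠ 0 := (Real.rpow_pos_of_pos Real.pi_pos _).ne'
  constructor
  · rintro ⟨α, hα, h1⟩
    have h2 : ((∏ i, t i : ℚ) : ℝ) * P D a (ZMod.unitOfCoprime m h) = α := by
      apply mul_right_cancel₀ hpi
      rw [← key, h1]
    have h3 : P D a (ZMod.unitOfCoprime m h) = ((∏ i, t i : ℚ) : ℝ)⁻¹ * α := by
      rw [← h2, inv_mul_cancel_left₀ hQ0']
    rw [h3]
    exact hQa.inv.mul hα
  · intro h1
    exact ⟨_, hQa.mul h1, key⟩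

/-- **The all-conjugates form of Rohrlich's conjecture at level `D` has only elementary potential
counterexamples.** Either for all admissible families of level `D` all of whose conjugate products
`∏ Γ(m a_i)` are algebraic multiples of `π ^ (r / 2)` the fractional parts are balanced, or there
is a subgroup `H` of `(ℤ/D)ˣ` with a cyclic quotient, not containing `-1`, such that for all
generators `g` of the quotient there is a counterexample whose deviation is a multiple of the
elementary function attached to `H` and `g`; in particular it has at most the three values `0`,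
`N`, `-N`. -/
theorem result (D : ℕ) (hD : 0 < D) :
    (∀ (r : ℕ) (a : Fin r → ℚ), Admissible D a → AllConjugates D a → Balanced D a) ∨
    ∃ H : Subgroup (ZMod D)ˣ, -1 ∉ H ∧ (∃ g, Generates H g) ∧ ∀ g, Generates H g →
      ∃ (r : ℕ) (a : Fin r → ℚ), Admissible D a ∧ AllConjugates D a ∧ ¬ Balanced D a ∧
        ThreeValued D a ∧ Elementary D H g a := by
  classical
  have hD0 : NeZero D := ⟨hD.ne'⟩
  by_cases hM : M D = ⊥
  · left
    intro r a ha hconj
    have halg : ∀ x, IsAlgebraic ℚ (P D a x) := by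
      intro x
      obtain ⟨m, h, h1, h2, rfl⟩ := exists_nat D x
      exact (algebraic_iff D a ha h1 h).1 (hconj m h1 h2 h)
    have hgood : Good D a := ⟨ha.2, no_int D ha.2 halg, halg⟩
    have hmem : T D a ∈ M D := ⟨Fin r, inferInstance, a, 1, one_pos, hgood, fun x => by
      rw [Nat.cast_one, one_mul]⟩
    rw [hM, Submodule.mem_bot] at hmem
    intro m h1 h2 h
    rw [deviation_eq D a ha.2 h, hmem]
    rfl
  · right
    obtain ⟨H, hH1, hH2, hH3⟩ := exists_shape (-1) (M D) (M_stable D) (M_anti D) hM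
    refine ⟨H, hH1, hH2, fun g hg => ?_⟩
    obtain ⟨⟨ι, hι, a, N, hN, ha, hf⟩, hf1, hf0⟩ := hH3 g hg
    replace hf : ∀ x, (N : ℚ) * shape (-1) H g x = T D a x := hf
    let e : Fin (Fintype.card ι) ≃ ι := (Fintype.equivFin ι).symm
    have hT : ∀ x, T D (a ∘ e) x = T D a x := by
      intro x
      unfold T
      exact Equiv.sum_comp e (fun i => Int.fract ((rep D x : ℚ) * a i) - 1 / 2)
    have hP : ∀ x, P D (a ∘ e) x = P D a x := by
      intro x
      unfold P
      exact Equiv.prod_comp e (fun i => gam ((rep D x : ℚ) * a i) / Real.sqrt Real.pi)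
    have hadm : Admissible D (a ∘ e) := by
      refine ⟨fun i n hn => ha.2.1 (e i) ⟨-(n : ℤ), ?_⟩, fun i => ha.1 (e i)⟩
      rw [Function.comp_apply] at hn
      rw [hn]
      push_cast
      rfl
    refine ⟨Fintype.card ι, a ∘ e, hadm, ?_, ?_, ?_, ?_⟩
    · intro m h1 h2 h
      refine (algebraic_iff D (a ∘ e) hadm h1 h).2 ?_
      rw [hP]
      exact ha.2.2 _
    · intro hbal
      apply hf0
      obtain ⟨m, h, h1, h2, h4⟩ := exists_nat D 1
      have h3 := hbal m h1 h2 h
      rw [deviation_eq D (a ∘ e) hadm.2 h, hT, ← hf, h4] at h3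
      have hN' : (N : ℚ) ≠ 0 := by exact_mod_cast hN.ne'
      exact (mul_eq_zero.1 h3).resolve_left hN'
    · refine ⟨N, by exact_mod_cast hN, fun m h1 h2 h => ?_⟩
      rw [deviation_eq D (a ∘ e) hadm.2 h, hT, ← hf]
      rcases hf1 (ZMod.unitOfCoprime m h) with h3 | h3 | h3
      · left
        rw [h3, mul_zero]
      · right; left
        rw [h3, mul_one]
      · right; right
        rw [h3]
        ring
    · refine ⟨N, by exact_mod_cast hN, fun m h => ?_⟩
      rw [deviation_eq D (a ∘ e) hadm.2 h, hT, ← hf]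

end Pool.Agent.Results.MP_c2409d_nt.GaloisStable
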